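import Pool.Agent.MP_8fd344_co.Defs

/-! Regularity and the underlying simple graph. -/

namespace Pool.Agent.MP_8fd344_co

/-- Every vertex of either class has exactly `k` neighbours. -/
def IsRegularOf (G : BG) (k : ℕ) : Prop :=
  (∀ x, (Finset.univ.filter fun y => (x, y) ∈ G.E).card = k) ∧
    ∀ y, (Finset.univ.filter fun x => (x, y) ∈ G.E).card = k

/-- The underlying simple graph on `V1 ⊕ V2`. -/
def toGraph (G : BG) : SimpleGraph (G.V1 ⊕ G.V2) :=
  SimpleGraph.fromRel fun a b => ∃ e ∈ G.E, a = Sum.inl e.1 ∧ b = Sum.inr e.2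

end Pool.Agent.MP_8fd344_co
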